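import Pool.Agent.DbarSUC.Final

open MeasureTheory Pool.Agent.DbarSUC

/-- Q1 of `MP_b3ccf3_an`, answered positively: strong unique continuation for
`|∂̄u| ≤ V|u|` with the critical potential `V ∈ L^{2n}_loc`, for vector-valued `u`. -/
theorem Pool.Agent.Results.MP_b3ccf3_an.StrongUCP.result
    (n m : ℕ) (hn : 2 ≤ n) (Ω : Set (CC n)) (hΩ : IsOpen Ω) (hc : IsConnected Ω)
    (u : CC n → CC m) (g : Fin n → CC n → CC m) (V : CC n → ℝ)
    (hu : MemW1Loc (4 * n / (2 * n + 1)) Ω u) (hg : IsWeakDbar Ω u g)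
    (hV : MemLpLoc (2 * n) Ω V)
    (hineq : ∀ᵐ z ∂(volume.restrict Ω), dbarNorm g z ≤ V z * ‖u z‖)
    (z₀ : CC n) (hz₀ : z₀ ∈ Ω)
    (hvan : VanishesToInfiniteOrder (4 * n / (2 * n - 1)) u z₀) :
    ∀ᵐ z ∂(volume.restrict Ω), u z = 0 :=
  strong_ucp n m hn Ω hΩ hc u g V hu hg hV hineq z₀ hz₀ hvan
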